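import Pool.Agent.helper73.BRZ.Spec

/-!
# Project brz (MP_a2a22c_al), row BRZ
-/

set_option autoImplicit false

namespace Pool.Agent.BRZ

open Matrix Module Pool.Agent.PR Pool.Agent.SHL TensorProduct MeasureTheory
open scoped ENNReal ContDiff RealInnerProductSpace FourierTransform SchwartzMap

theorem BRZ (hCTY : CTY_stmt) (hMEL : MEL_stmt) (hPHI : PHI_stmt) (hBMP : BMP_stmt)
    (hDSA : DSA_stmt) : BRZ_stmt := by
  intro d D _ _ _ hd hc S hloc
  have hd0 : 0 < d := by omega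
  obtain ⟨f, hf⟩ := hBMP d D hd0 S
  obtain ⟨-, hΦ0, hΦn, hW⟩ := hPHI d D hd0 S f hf
  obtain ⟨C, K, hCK⟩ := hDSA d D hd0 hc S hloc f hf
  apply hMEL d hd _ hW C K
  intro U hU
  have hU0 : 0 < U := by linarith
  have hT : (1 : ℝ) ≤ U ^ d := one_le_pow₀ hU
  obtain ⟨-, hK⟩ := hCK (U ^ d) hT
  have key := hCTY d D hd0 hc S hloc (fun m => ENNReal.ofReal (S.PhiF f (U ^ d / m)))
  have key2 := congrArg ENNReal.toReal key
  rw [ENNReal.tsum_toReal_eq (fun Y => ENNReal.ofReal_ne_top),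
    ENNReal.tsum_toReal_eq (fun w => ENNReal.mul_ne_top (ENNReal.natCast_ne_top _)
      ENNReal.ofReal_ne_top)] at key2
  have e1 : ∀ Y : S.LY, (ENNReal.ofReal (S.PhiF f (U ^ d / (S.ix Y : ℝ)))).toReal =
      S.PhiF f (U ^ d / S.ix Y) := fun Y => ENNReal.toReal_ofReal (hΦ0 _)
  have e2 : ∀ w : ℕ, ((cc d w : ℝ≥0∞) *
      ENNReal.ofReal (S.PhiF f (U ^ d / ((w ^ d : ℕ) : ℝ)))).toReal =
      (cc d w : ℝ) * (fun r : ℝ => if 0 < r then S.PhiF f (r ^ d) else 0) (U / w) := by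
    intro w
    rw [ENNReal.toReal_mul, ENNReal.toReal_natCast, ENNReal.toReal_ofReal (hΦ0 _)]
    congr 1
    rcases Nat.eq_zero_or_pos w with h | h
    · subst h
      have h1 : U ^ d / (((0 : ℕ) ^ d : ℕ) : ℝ) = 0 := by
        rw [zero_pow (by omega), Nat.cast_zero, div_zero]
      rw [h1, hΦn 0 le_rfl]
      simp
    · have hw : (0 : ℝ) < w := by exact_mod_cast h
      have h2 : 0 < U / (w : ℝ) := by positivity
      simp only [h2, if_true]
      rw [div_pow]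
      push_cast
      rfl
  rw [tsum_congr e1, tsum_congr e2] at key2
  rw [← key2]
  exact hK

end Pool.Agent.BRZ
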